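import Pool.Agent.X178.Tor.Close

/-!
# Metrics near the torus of revolution without isometric immersions

The standard torus of revolution realises the metric `g₀ = du² + (2 + cos u)² dv²` on
`T² = ℝ² / (2πℤ)²`. The metrics `g_c = du² + (2 + c cos u)² dv²`, `c < 1`, converge to `g₀` with all
derivatives as `c → 1`, and none of them has a smooth isometric immersion, let alone an embedding, into
`ℝ³`: the total positive curvature of `g_c` is `4πc < 4π`, while for a surface immersed in `ℝ³` every
unit vector `n` is, up to a sign determined by the second fundamental form, the normal at a point of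
maximal height in the direction `n`, where the curvature is nonnegative (area formula for the cone
over the Gauss map, `Pool/Agent/X178/Tor/Cone.lean`).
-/

set_option autoImplicit false

namespace Pool.Agent.Results.MP_665542_gt.TightTorus

open Pool.Agent.X178.Tor

/-- For the metric `g₀ = du² + (2 + cos u)² dv²` on the torus, which has a smooth isometric embedding
into `ℝ³`, there are for all `ε > 0` and `k` smooth metrics `g` with `‖g - g₀‖_{C⁰} < ε`, even with all
derivatives of `g - g₀` of order at most `k` smaller than `ε`, such that `(T², g)` has no smooth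
isometric immersion into `ℝ³`. -/
theorem result : ∃ g₀ : TorusMetric,
    (∀ x, g₀.g x = Matrix.diagonal ![1, (2 + Real.cos x.1) ^ 2]) ∧
    (∃ f₀, IsIsometricEmbedding g₀ f₀) ∧
    ∀ (ε : ℝ) (k : ℕ), 0 < ε → ∃ g : TorusMetric,
      c0Dist g g₀ < ENNReal.ofReal ε ∧
      (∀ n ≤ k, ∀ i j x, ‖iteratedFDeriv ℝ n (fun y => g.g y i j - g₀.g y i j) x‖ < ε) ∧
      ¬ ∃ f, IsIsometricImmersion g f :=
  main_rev

end Pool.Agent.Results.MP_665542_gt.TightTorus
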